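import Pool.Agent.Y144.CZ.Main

/-!
# Final form of the results on Colmez's formula
-/

set_option autoImplicit false
set_option linter.unusedSectionVars false

namespace Pool.Agent.Y144.CZ

open Finset

section conj

variable {G : Type} [Group G] {c : G}

/-- the datum with the complex conjugate embedding -/
def Datum.conj (d : Datum G c) : Datum G c := ⟨d.H, c • d.ψ, d.Φ, d.cm⟩

end conj

variable {G : Type} [Group G] [Fintype G] {c : G}

lemma a0_conjugate (hc : ∀ x : G, c * x = x * c) (d : Datum G c) (g : G) :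
    a0 d.conj g = 1 - a0 d g := by
  rw [← a0_c hc, a0_eq, a0_eq]
  congr 1
  refine Finset.sum_congr rfl fun η _ => ?_
  have : (η⁻¹ * g * η) • d.conj.ψ = (η⁻¹ * (c * g) * η) • d.ψ := by
    show (η⁻¹ * g * η) • (c • d.ψ) = (η⁻¹ * (c * g) * η) • d.ψ
    rw [smul_smul]
    congr 1
    rw [← hc, ← mul_assoc, ← mul_assoc, hc η⁻¹, mul_assoc η⁻¹ c g]
  show ind ((η⁻¹ * g * η) • d.conj.ψ ∈ d.Φ) = _
  rw [this]
  rfl

lemma odd_of_coprime (hc1 : c ≠ 1) (hcc : c * c = 1) {k : ℕ}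
    (hk : Nat.Coprime k (Nat.card G)) : Odd k := by
  have h1 : orderOf c = 2 := orderOf_eq_prime (by rw [pow_two, hcc]) hc1
  have h2 : 2 ∣ Nat.card G := h1 ▸ orderOf_dvd_natCard c
  have h3 : Nat.Coprime k 2 := Nat.Coprime.coprime_dvd_right h2 hk
  exact (Nat.coprime_two_right).1 h3

lemma c_pow (hcc : c * c = 1) {k : ℕ} (hk : Odd k) : c ^ k = c := by
  obtain ⟨m, rfl⟩ := hk
  rw [pow_add, pow_mul, pow_two, hcc, one_pow, one_mul, pow_one]

lemma c_mul_pow (hcc : c * c = 1) (hc : ∀ x : G, c * x = x * c) {k : ℕ} (hk : Odd k) (g : G) :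
    (c * g) ^ k = c * g ^ k := by
  have h : Commute c g := hc g
  rw [h.mul_pow, c_pow hcc hk]

open Classical in
/-- The CM type `{x ∈ G : x ^ k ψ ∈ Φ}` of `K`, and the identity embedding of `K`. -/
noncomputable def Datum.pow (hc1 : c ≠ 1) (hcc : c * c = 1) (hc : ∀ x : G, c * x = x * c)
    (d : Datum G c) (k : ℕ) (hk : Nat.Coprime k (Nat.card G)) : Datum G c where
  H := ⊥
  ψ := ((1 : G) : G ⧸ (⊥ : Subgroup G))
  Φ := (univ.filter fun x : G => x ^ k • d.ψ ∈ d.Φ).image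
    (fun x : G => (x : G ⧸ (⊥ : Subgroup G)))
  cm := by
    have hmem : ∀ y : G, (y : G ⧸ (⊥ : Subgroup G)) ∈ (univ.filter fun x : G =>
        x ^ k • d.ψ ∈ d.Φ).image (fun x : G => (x : G ⧸ (⊥ : Subgroup G))) ↔
        y ^ k • d.ψ ∈ d.Φ := by
      intro y
      rw [Finset.mem_image]
      constructor
      · rintro ⟨x, hx, hxy⟩
        rw [QuotientGroup.eq, Subgroup.mem_bot, inv_mul_eq_one] at hxy
        rw [← hxy]
        exact (Finset.mem_filter.1 hx).2
      · intro h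
        exact ⟨y, Finset.mem_filter.2 ⟨Finset.mem_univ _, h⟩, rfl⟩
    intro x
    obtain ⟨y, rfl⟩ := QuotientGroup.mk_surjective x
    have h1 : c • (y : G ⧸ (⊥ : Subgroup G)) = ((c * y : G) : G ⧸ (⊥ : Subgroup G)) := rfl
    rw [h1, hmem, hmem, c_mul_pow hcc hc (odd_of_coprime hc1 hcc hk), mul_smul, d.cm]

lemma a0_pow (hc1 : c ≠ 1) (hcc : c * c = 1) (hc : ∀ x : G, c * x = x * c)
    (d : Datum G c) (k : ℕ) (hk : Nat.Coprime k (Nat.card G)) (g : G) :
    a0 (d.pow hc1 hcc hc k hk) g = a0 d (g ^ k) := by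
  classical
  rw [a0_eq, a0_eq]
  congr 1
  refine Finset.sum_congr rfl fun η _ => ?_
  congr 1
  apply propext
  show (η⁻¹ * g * η) • ((1 : G) : G ⧸ (⊥ : Subgroup G)) ∈ (univ.filter fun x : G =>
        x ^ k • d.ψ ∈ d.Φ).image (fun x : G => (x : G ⧸ (⊥ : Subgroup G))) ↔ _
  have h1 : (η⁻¹ * g * η) • ((1 : G) : G ⧸ (⊥ : Subgroup G)) =
      ((η⁻¹ * g * η : G) : G ⧸ (⊥ : Subgroup G)) := by
    show ((η⁻¹ * g * η * 1 : G) : G ⧸ (⊥ : Subgroup G)) = _
    rw [mul_one]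
  have h2 : (η⁻¹ * g * η) ^ k = η⁻¹ * g ^ k * η := by
    have := conj_pow (i := k) (a := η⁻¹) (b := g)
    rwa [inv_inv] at this
  rw [h1, Finset.mem_image, ← h2]
  constructor
  · rintro ⟨x, hx, hxy⟩
    rw [QuotientGroup.eq, Subgroup.mem_bot, inv_mul_eq_one] at hxy
    rw [← hxy]
    exact (Finset.mem_filter.1 hx).2
  · intro h
    exact ⟨η⁻¹ * g * η, Finset.mem_filter.2 ⟨Finset.mem_univ _, h⟩, rfl⟩

/-- the sum of a function over the power maps is invariant under power maps -/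
lemma sum_pow_inv (f : G → ℚ) : PowInv fun g =>
    ∑ k : (ZMod (Nat.card G))ˣ, f (g ^ (k : ZMod (Nat.card G)).val) := by
  intro j hj g
  show ∑ k : (ZMod (Nat.card G))ˣ, f ((g ^ j) ^ (k : ZMod (Nat.card G)).val) = _
  refine Fintype.sum_equiv (Equiv.mulLeft (ZMod.unitOfCoprime j hj)) _ _ fun k => ?_
  congr 1
  rw [← pow_mul, pow_eq_pow_iff_modEq]
  apply Nat.ModEq.of_dvd (orderOf_dvd_natCard g)
  rw [← ZMod.natCast_eq_natCast_iff]
  push_cast
  rw [ZMod.natCast_val, ZMod.cast_id', id_eq, ZMod.natCast_val, ZMod.cast_id', id_eq]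
  rfl

lemma PowInv.star {f : G → ℚ} (hf : PowInv f) : Star f := by
  intro k hk g u _
  rw [hf k hk, hf k hk, sub_self, sub_self]

lemma avg_pow (hc1 : c ≠ 1) (hcc : c * c = 1) (hc : ∀ x : G, c * x = x * c) (H : Subgroup G) :
    PowInv (avg c H) := by
  intro k hk g
  have e1 := avg_odd hcc hc H g
  have e2 := avg_even hc H g
  have e3 := avg_odd hcc hc H (g ^ k)
  have e4 := avg_even hc H (g ^ k)
  have e5 : perm H (c * g ^ k) = perm H (c * g) := by
    rw [← c_mul_pow hcc hc (odd_of_coprime hc1 hcc hk), perm_pow H k hk]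
  rw [e5, perm_pow H k hk] at e3
  linarith

lemma a0_comm (d : Datum G c) (hd : commutator G ≤ d.H) (g u : G) (hu : u ∈ commutator G) :
    a0 d (g * u) = a0 d g := by
  rw [a0_eq, a0_eq]
  congr 1
  refine Finset.sum_congr rfl fun η _ => ?_
  have : (η⁻¹ * (g * u) * η) • d.ψ = (η⁻¹ * g * η) • d.ψ := by
    obtain ⟨y, hy⟩ := QuotientGroup.mk_surjective d.ψ
    rw [← hy]
    show ((η⁻¹ * (g * u) * η * y : G) : G ⧸ d.H) = ((η⁻¹ * g * η * y : G) : G ⧸ d.H)
    rw [QuotientGroup.eq]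
    apply hd
    have h1 : (η⁻¹ * (g * u) * η * y)⁻¹ * (η⁻¹ * g * η * y) = (y⁻¹ * η⁻¹) * u⁻¹ * (y⁻¹ * η⁻¹)⁻¹ := by
      group
    rw [h1]
    exact (inferInstance : (commutator G).Normal).conj_mem _ (Subgroup.inv_mem _ hu) _
  rw [this]

lemma star_of_gen (hc1 : c ≠ 1) (hcc : c * c = 1) (hc : ∀ x : G, c * x = x * c) {b : G → ℚ}
    (hb : b ∈ ({fun _ => 1} ∪ {f | ∃ H : Subgroup G, c ∉ H ∧ f = avg c H} ∪
      {f | ∃ d : Datum G c, commutator G ≤ d.H ∧ f = a0 d} : Set (G → ℚ))) : Star b := by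
  rcases hb with (hb | ⟨H, hH, rfl⟩) | ⟨d, hd, rfl⟩
  · have h1 : b = fun _ => 1 := hb
    rw [h1]
    intro k _ g u _
    rfl
  · exact (avg_pow hc1 hcc hc H).star
  · intro k hk g u hu
    have h1 : (g * u) ^ k = g ^ k * ((g ^ k)⁻¹ * (g * u) ^ k) := by rw [mul_inv_cancel_left]
    rw [h1, a0_comm d hd _ _ (mem_comm_of_pow g u hu k), a0_comm d hd _ _ hu]

lemma star_of_span (hc1 : c ≠ 1) (hcc : c * c = 1) (hc : ∀ x : G, c * x = x * c) {b : G → ℚ}
    (hmem : b ∈ Submodule.span ℚ ({fun _ => 1} ∪ {f | ∃ H : Subgroup G, c ∉ H ∧ f = avg c H} ∪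
      {f | ∃ d : Datum G c, commutator G ≤ d.H ∧ f = a0 d})) : Star b := by
  induction hmem using Submodule.span_induction with
  | mem x hx => exact star_of_gen hc1 hcc hc hx
  | zero => intro k _ g u _; simp
  | add x y _ _ hx hy =>
    intro k hk g u hu
    have h1 := hx k hk g u hu
    have h2 := hy k hk g u hu
    simp only [Pi.add_apply]
    linarith
  | smul a x _ hx =>
    intro k hk g u hu
    have h1 := hx k hk g u hu
    simp only [Pi.smul_apply, smul_eq_mul]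
    rw [← mul_sub, h1, mul_sub]

/-- the class functions `b` with `b g + b (c g)` constant which satisfy `Star` are exactly the
rational combinations of constants, averages and data of abelian fields -/
theorem span_iff (hc1 : c ≠ 1) (hcc : c * c = 1) (hc : ∀ x : G, c * x = x * c) (b : G → ℚ)
    (hb : Cls b) (κ : ℚ) (hκ : ∀ g, b g + b (c * g) = κ) :
    Star b ↔ b ∈ Submodule.span ℚ ({fun _ => 1} ∪ {f | ∃ H : Subgroup G, c ∉ H ∧ f = avg c H} ∪
      {f | ∃ d : Datum G c, commutator G ≤ d.H ∧ f = a0 d}) := by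
  constructor
  · intro hstar
    by_contra hcon
    obtain ⟨D, hD1, hD2⟩ := Submodule.exists_le_ker_of_notMem hcon
    let ι : ℚ →ₗ[ℚ] ℝ := Algebra.linearMap ℚ ℝ
    have h0 := criterion hcc hc (ι ∘ₗ D) ?_ ?_ ?_ b hb κ hκ hstar
    · rw [LinearMap.comp_apply] at h0
      apply hD1
      have h1 : ((D b : ℚ) : ℝ) = 0 := h0
      exact_mod_cast h1
    · rw [LinearMap.comp_apply, (hD2 (Submodule.subset_span (Or.inl (Or.inl rfl))) :
        D (fun _ => 1) = 0), map_zero]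
    · intro H hH
      rw [LinearMap.comp_apply, (hD2 (Submodule.subset_span (Or.inl (Or.inr ⟨H, hH, rfl⟩))) :
        D (avg c H) = 0), map_zero]
    · intro d hd
      rw [LinearMap.comp_apply, (hD2 (Submodule.subset_span (Or.inr ⟨d, hd, rfl⟩)) :
        D (a0 d) = 0), map_zero]
  · intro hmem
    exact star_of_span hc1 hcc hc hmem

end Pool.Agent.Y144.CZ
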