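import Pool.Agent.Y144.CZ.Avg

/-!
# Class functions invariant under power maps

Artin's theorem: a rational valued class function `f` with `f (g ^ k) = f g` for `k` prime to `|G|`
is a linear combination of the permutation characters on the cosets of the cyclic subgroups.
-/

set_option autoImplicit false
set_option linter.unusedSectionVars false

namespace Pool.Agent.Y144.CZ

open Finset

variable {G : Type} [Group G] [Fintype G] {c : G}

/-- class functions -/
def Cls (f : G → ℚ) : Prop := ∀ x g, f (x * g * x⁻¹) = f g

/-- functions invariant under the power maps -/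
def PowInv (f : G → ℚ) : Prop := ∀ (k : ℕ), Nat.Coprime k (Nat.card G) → ∀ g, f (g ^ k) = f g

lemma PowInv.of_order {f : G → ℚ} (hf : PowInv f) (g : G) (k : ℕ)
    (hk : Nat.Coprime k (orderOf g)) : f (g ^ k) = f g := by
  have hdvd : orderOf g ∣ Nat.card G := orderOf_dvd_natCard g
  have : NeZero (Nat.card G) := ⟨Nat.card_pos.ne'⟩
  have : NeZero (orderOf g) := ⟨(orderOf_pos g).ne'⟩
  obtain ⟨u, hu⟩ := ZMod.unitsMap_surjective hdvd (ZMod.unitOfCoprime k hk)
  have h1 : (((u : ZMod (Nat.card G)).val : ℕ) : ZMod (orderOf g)) = (k : ZMod (orderOf g)) := by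
    have h2 := congrArg (fun z : (ZMod (orderOf g))ˣ => (z : ZMod (orderOf g))) hu
    simp only [ZMod.unitsMap_val, ZMod.coe_unitOfCoprime] at h2
    rw [← h2, ZMod.cast_eq_val]
  have h3 : g ^ (u : ZMod (Nat.card G)).val = g ^ k := by
    rw [pow_eq_pow_iff_modEq]
    exact (ZMod.natCast_eq_natCast_iff _ _ _).1 h1
  rw [← h3]
  exact hf _ (ZMod.val_coe_unit_coprime u) g

lemma perm_pow (H : Subgroup G) : PowInv (perm H) := by
  intro k hk g
  unfold perm
  have h : ∀ x : G ⧸ H, g ^ k • x = x ↔ g • x = x := by
    intro x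
    constructor
    · intro h
      have hk2 : Nat.Coprime k (orderOf g) := Nat.Coprime.coprime_dvd_right
        (orderOf_dvd_natCard g) hk
      obtain ⟨m, hm⟩ := exists_pow_eq_self_of_coprime hk2
      rw [← hm]
      have h2 : ∀ m : ℕ, (g ^ k) ^ m • x = x := by
        intro m
        induction m with
        | zero => rw [pow_zero, one_smul]
        | succ m ih => rw [pow_succ, mul_smul, h, ih]
      exact h2 m
    · intro h
      induction k with
      | zero => rw [pow_zero, one_smul]
      | succ m ih =>
        have h2 : ∀ m : ℕ, g ^ m • x = x := by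
          intro m
          induction m with
          | zero => rw [pow_zero, one_smul]
          | succ m ih => rw [pow_succ, mul_smul, h, ih]
        exact h2 _
  simp only [h]

lemma perm_cls (H : Subgroup G) : Cls (perm H) := fun x g => perm_conj H x g

lemma perm_ne {H : Subgroup G} {g : G} (h : perm H g ≠ 0) : ∃ y : G, y⁻¹ * g * y ∈ H := by
  unfold perm at h
  have h1 : Nat.card {x : G ⧸ H // g • x = x} ≠ 0 := by exact_mod_cast h
  have h2 : Nonempty {x : G ⧸ H // g • x = x} := by
    by_contra hc
    rw [not_nonempty_iff] at hc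
    exact h1 Nat.card_of_isEmpty
  obtain ⟨⟨x, hx⟩⟩ := h2
  obtain ⟨y, rfl⟩ := QuotientGroup.mk_surjective x
  refine ⟨y, ?_⟩
  have h3 : ((g * y : G) : G ⧸ H) = (y : G ⧸ H) := hx
  rw [eq_comm, QuotientGroup.eq] at h3
  rwa [← mul_assoc] at h3

lemma orderOf_conj' (y g : G) : orderOf (y⁻¹ * g * y) = orderOf g := by
  have := MulEquiv.orderOf_eq (MulAut.conj y⁻¹) g
  simpa using this

lemma perm_self_pos (x : G) : 0 < perm (Subgroup.zpowers x) x := by
  unfold perm
  have h : Nonempty {y : G ⧸ Subgroup.zpowers x // x • y = y} := by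
    refine ⟨⟨((1 : G) : G ⧸ Subgroup.zpowers x), ?_⟩⟩
    show ((x * 1 : G) : G ⧸ Subgroup.zpowers x) = ((1 : G) : G ⧸ Subgroup.zpowers x)
    rw [mul_one, eq_comm, QuotientGroup.eq, inv_one, one_mul]
    exact Subgroup.mem_zpowers x
  have : 0 < Nat.card {y : G ⧸ Subgroup.zpowers x // x • y = y} := Nat.card_pos
  exact_mod_cast this

lemma perm_zero {x g : G} (h : orderOf x < orderOf g) : perm (Subgroup.zpowers x) g = 0 := by
  by_contra hc
  obtain ⟨y, hy⟩ := perm_ne hc
  have h1 := orderOf_dvd_of_mem_zpowers hy
  rw [orderOf_conj'] at h1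
  exact absurd (Nat.le_of_dvd (orderOf_pos x) h1) (not_le.2 h)

lemma same_value {f : G → ℚ} (hf : Cls f) (hp : PowInv f) {x g : G}
    (h : orderOf x = orderOf g) (hne : perm (Subgroup.zpowers x) g ≠ 0) : f x = f g := by
  obtain ⟨y, hy⟩ := perm_ne hne
  have h1 : f (y⁻¹ * g * y) = f g := by
    have := hf y⁻¹ g
    rwa [inv_inv] at this
  rw [← h1]
  set z := y⁻¹ * g * y with hz
  have hzo : orderOf z = orderOf x := by rw [hz, orderOf_conj', h]
  have hle : Subgroup.zpowers z ≤ Subgroup.zpowers x := Subgroup.zpowers_le.2 hy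
  have heq : Subgroup.zpowers z = Subgroup.zpowers x := by
    apply SetLike.coe_injective
    apply Set.eq_of_subset_of_ncard_le (fun w hw => hle hw) _ (Set.toFinite _)
    rw [← Nat.card_coe_set_eq, ← Nat.card_coe_set_eq]
    have e1 : Nat.card (Subgroup.zpowers z) = orderOf z := Nat.card_zpowers z
    have e2 : Nat.card (Subgroup.zpowers x) = orderOf x := Nat.card_zpowers x
    have : Nat.card (Subgroup.zpowers x) ≤ Nat.card (Subgroup.zpowers z) := by rw [e1, e2, hzo]
    exact this
  have hxz : z ∈ Subgroup.zpowers x := hy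
  obtain ⟨k, hk⟩ := (mem_powers_iff_mem_zpowers.2 hxz : z ∈ Submonoid.powers x)
  have hk' : x ^ k = z := hk
  have hcop : Nat.Coprime k (orderOf x) := by
    have h5 : orderOf (x ^ k) = orderOf x := by rw [hk', hzo]
    rw [orderOf_pow, Nat.div_eq_self] at h5
    rcases h5 with h5 | h5
    · exact absurd h5 (orderOf_pos x).ne'
    · rw [Nat.coprime_comm]
      exact h5
  rw [← hk']
  exact (hp.of_order x k hcop).symm

/-- Artin's theorem for rational valued class functions invariant under power maps -/
theorem artin (n : ℕ) : ∀ f : G → ℚ, Cls f → PowInv f → (∀ g, n < orderOf g → f g = 0) →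
    f ∈ Submodule.span ℚ (Set.range fun x : G => perm (Subgroup.zpowers x)) := by
  induction n with
  | zero =>
    intro f _ _ h
    have : f = 0 := by
      funext g
      exact h g (orderOf_pos g)
    rw [this]
    exact Submodule.zero_mem _
  | succ n ih =>
    intro f hf hp h
    set cc : G → ℚ := fun g => ∑ x : G, ind (orderOf x = n + 1) * perm (Subgroup.zpowers x) g
      with hcc
    set F : G → ℚ := ∑ x : G, (ind (orderOf x = n + 1) * (f x / cc x)) •
      perm (Subgroup.zpowers x) with hF
    have hFg : ∀ g, F g = ∑ x : G, (ind (orderOf x = n + 1) * (f x / cc x)) *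
        perm (Subgroup.zpowers x) g := by
      intro g
      rw [hF, Finset.sum_apply]
      refine Finset.sum_congr rfl fun x _ => ?_
      rw [Pi.smul_apply, smul_eq_mul]
    have hccC : Cls cc := by
      intro x g
      simp only [hcc]
      refine Finset.sum_congr rfl fun y _ => ?_
      rw [perm_cls]
    have hccP : PowInv cc := by
      intro k hk g
      simp only [hcc]
      refine Finset.sum_congr rfl fun y _ => ?_
      rw [perm_pow _ k hk]
    have hFC : Cls F := by
      intro x g
      rw [hFg, hFg]
      refine Finset.sum_congr rfl fun y _ => ?_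
      rw [perm_cls]
    have hFP : PowInv F := by
      intro k hk g
      rw [hFg, hFg]
      refine Finset.sum_congr rfl fun y _ => ?_
      rw [perm_pow _ k hk]
    have hmem : F ∈ Submodule.span ℚ (Set.range fun x : G => perm (Subgroup.zpowers x)) := by
      rw [hF]
      exact Submodule.sum_mem _ fun x _ => Submodule.smul_mem _ _ (Submodule.subset_span ⟨x, rfl⟩)
    have hccpos : ∀ g, orderOf g = n + 1 → 0 < cc g := by
      intro g hg
      simp only [hcc]
      refine Finset.sum_pos' (fun x _ => mul_nonneg (ind_nonneg _) ?_) ⟨g, Finset.mem_univ _, ?_⟩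
      · unfold perm
        exact Nat.cast_nonneg _
      · rw [ind_pos hg, one_mul]
        exact perm_self_pos g
    have hval : ∀ g, orderOf g = n + 1 → F g = f g := by
      intro g hg
      have h1 : F g = (f g / cc g) * cc g := by
        rw [hFg]
        simp only [hcc]
        rw [Finset.mul_sum]
        refine Finset.sum_congr rfl fun x _ => ?_
        by_cases hx : orderOf x = n + 1
        · by_cases h2 : perm (Subgroup.zpowers x) g = 0
          · rw [h2, mul_zero, mul_zero, mul_zero]
          · have e1 := same_value hf hp (hx.trans hg.symm) h2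
            have e2 := same_value hccC hccP (hx.trans hg.symm) h2
            simp only [hcc] at e2
            rw [e1, e2, ind_pos hx]
            ring
        · rw [ind_neg hx]
          ring
      rw [h1, div_mul_cancel₀ _ (hccpos g hg).ne']
    have hbig : ∀ g, n + 1 < orderOf g → F g = 0 := by
      intro g hg
      rw [hFg]
      refine Finset.sum_eq_zero fun x _ => ?_
      by_cases hx : orderOf x = n + 1
      · rw [perm_zero (by rw [hx]; exact hg), mul_zero]
      · rw [ind_neg hx, zero_mul, zero_mul]
    have hrest := ih (f - F) (fun x g => by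
        rw [Pi.sub_apply, Pi.sub_apply, hf, hFC])
      (fun k hk g => by
        rw [Pi.sub_apply, Pi.sub_apply, hp k hk, hFP k hk])
      (fun g hg => by
        rw [Pi.sub_apply]
        rcases Nat.lt_or_ge (n + 1) (orderOf g) with h1 | h1
        · rw [h g h1, hbig g h1, sub_zero]
        · rw [hval g (le_antisymm h1 hg), sub_self])
    have := Submodule.add_mem _ hrest hmem
    rwa [sub_add_cancel] at this

theorem artin' (f : G → ℚ) (hf : Cls f) (hp : PowInv f) :
    f ∈ Submodule.span ℚ (Set.range fun x : G => perm (Subgroup.zpowers x)) :=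
  artin (Nat.card G) f hf hp fun g hg => absurd (Nat.le_of_dvd Nat.card_pos (orderOf_dvd_natCard g))
    (not_le.2 hg)

/-- odd class functions invariant under power maps are killed by every form killing the odd parts
of the permutation characters -/
theorem odd_zero (D : (G → ℚ) →ₗ[ℚ] ℝ)
    (hD : ∀ H : Subgroup G, D (fun g => perm H g - perm H (c * g)) = 0)
    (f : G → ℚ) (hf : Cls f) (hp : PowInv f) (hodd : ∀ g, f (c * g) = - f g) : D f = 0 := by
  let T : (G → ℚ) →ₗ[ℚ] (G → ℚ) :=
    LinearMap.id - LinearMap.funLeft ℚ ℚ (fun g : G => c * g)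
  have hT : ∀ u : G → ℚ, T u = fun g => u g - u (c * g) := fun u => rfl
  have h1 : Submodule.span ℚ (Set.range fun x : G => perm (Subgroup.zpowers x)) ≤
      LinearMap.ker (D ∘ₗ T) := by
    rw [Submodule.span_le]
    rintro _ ⟨x, rfl⟩
    rw [SetLike.mem_coe, LinearMap.mem_ker, LinearMap.comp_apply, hT]
    exact hD _
  have h2 := h1 (artin' f hf hp)
  rw [LinearMap.mem_ker, LinearMap.comp_apply, hT] at h2
  have h3 : (fun g => f g - f (c * g)) = (2 : ℚ) • f := by
    funext g
    rw [hodd, Pi.smul_apply, smul_eq_mul]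
    ring
  rw [h3, map_smul] at h2
  have h4 : (2 : ℚ) ≠ 0 := by norm_num
  exact (smul_eq_zero.1 h2).resolve_left h4

end Pool.Agent.Y144.CZ
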