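import Pool.Agent.Y144.CZ.Def

/-!
# The average over all CM types of a CM field
-/

set_option autoImplicit false
set_option linter.unusedSectionVars false

namespace Pool.Agent.Y144.CZ

open Finset

variable {G : Type} [Group G] [Fintype G] {c : G}

/-- the character of the permutation representation on `G ⧸ H` -/
noncomputable def perm (H : Subgroup G) (g : G) : ℚ := Nat.card {x : G ⧸ H // g • x = x}

/-- the sum over all CM types `Φ` and all `ψ ∈ Φ` -/
noncomputable def avg (c : G) (H : Subgroup G) (g : G) : ℚ :=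
  ∑ Φ : CMType c H, ∑ ψ ∈ Φ.1, a0 (⟨H, ψ, Φ.1, Φ.2⟩ : Datum G c) g

lemma perm_conj (H : Subgroup G) (x g : G) : perm H (x * g * x⁻¹) = perm H g := by
  unfold perm
  congr 1
  refine Nat.card_congr
    { toFun := fun y => ⟨x⁻¹ • y.1, ?_⟩
      invFun := fun y => ⟨x • y.1, ?_⟩
      left_inv := fun y => Subtype.ext (by simp)
      right_inv := fun y => Subtype.ext (by simp) }
  · rw [smul_smul]
    have := y.2
    calc (g * x⁻¹) • y.1 = x⁻¹ • ((x * g * x⁻¹) • y.1) := by rw [smul_smul]; congr 1; group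
      _ = x⁻¹ • y.1 := by rw [this]
  · rw [smul_smul]
    have := y.2
    calc (x * g * x⁻¹ * x) • y.1 = x • (g • y.1) := by rw [smul_smul]; congr 1; group
      _ = x • y.1 := by rw [this]

section types

variable (H : Subgroup G)

lemma smul_c (hcc : c * c = 1) (x : G ⧸ H) : c • c • x = x := by
  rw [smul_smul, hcc, one_smul]

/-- the complement of a CM type -/
lemma exists_compl (Φ : CMType c H) : ∃ Ψ : CMType c H, ∀ x, x ∈ Ψ.1 ↔ x ∉ Φ.1 := by
  classical
  have : Fintype (G ⧸ H) := Fintype.ofFinite _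
  refine ⟨⟨Φ.1ᶜ, fun x => ?_⟩, fun x => Finset.mem_compl⟩
  rw [Finset.mem_compl, Finset.mem_compl, Φ.2]

/-- changing a CM type at `y` and `c y` -/
lemma exists_flip (hcc : c * c = 1) (y : G ⧸ H) (Φ : CMType c H) : ∃ Ψ : CMType c H,
    ∀ x, x ∈ Ψ.1 ↔ ((x = y ∨ x = c • y) ∧ x ∉ Φ.1) ∨ (¬ (x = y ∨ x = c • y) ∧ x ∈ Φ.1) := by
  classical
  have : Fintype (G ⧸ H) := Fintype.ofFinite _
  refine ⟨⟨univ.filter fun x => ((x = y ∨ x = c • y) ∧ x ∉ Φ.1) ∨
    (¬ (x = y ∨ x = c • y) ∧ x ∈ Φ.1), fun x => ?_⟩, fun x => ?_⟩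
  · rw [Finset.mem_filter, Finset.mem_filter]
    have h1 : (c • x = y ∨ c • x = c • y) ↔ (x = y ∨ x = c • y) := by
      constructor
      · rintro (h | h)
        · right
          rw [← h, smul_c H hcc]
        · left
          have := congrArg (fun z => c • z) h
          simpa [smul_c H hcc] using this
      · rintro (rfl | rfl)
        · exact Or.inr rfl
        · exact Or.inl (smul_c H hcc y)
    rw [h1, Φ.2]
    simp only [Finset.mem_univ, true_and]
    tauto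
  · rw [Finset.mem_filter]
    simp only [Finset.mem_univ, true_and]

/-- the numbers of CM types containing one or two elements -/
lemma sum_mem (ψ : G ⧸ H) :
    ∑ Φ : CMType c H, ind (ψ ∈ Φ.1) = (Nat.card (CMType c H) : ℚ) / 2 := by
  choose f hf using exists_compl (c := c) H
  have hinv : Function.Involutive f := by
    intro Φ
    apply Subtype.ext
    ext x
    rw [hf, hf, not_not]
  have h1 : ∑ Φ : CMType c H, ind (ψ ∈ (f Φ).1) = ∑ Φ : CMType c H, ind (ψ ∈ Φ.1) :=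
    Fintype.sum_bijective f hinv.bijective _ _ fun _ => rfl
  have h2 : ∑ Φ : CMType c H, ind (ψ ∈ (f Φ).1) = ∑ Φ : CMType c H, (1 - ind (ψ ∈ Φ.1)) := by
    refine Finset.sum_congr rfl fun Φ _ => ?_
    by_cases h : ψ ∈ Φ.1
    · rw [ind_pos h, ind_neg (by rw [hf]; exact not_not.2 h)]; norm_num
    · rw [ind_neg h, ind_pos (by rw [hf]; exact h)]; norm_num
  rw [h1, Finset.sum_sub_distrib] at h2
  have h3 : (∑ _Φ : CMType c H, (1 : ℚ)) = Nat.card (CMType c H) := by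
    rw [Finset.sum_const, Finset.card_univ, Nat.card_eq_fintype_card, nsmul_eq_mul, mul_one]
  rw [h3] at h2
  linarith

lemma sum_pair (hcc : c * c = 1) (ψ ψ' : G ⧸ H) :
    ∑ Φ : CMType c H, ind (ψ ∈ Φ.1) * ind (ψ' ∈ Φ.1) -
      ∑ Φ : CMType c H, ind (ψ ∈ Φ.1) * ind (c • ψ' ∈ Φ.1) =
    (Nat.card (CMType c H) : ℚ) / 2 * (ind (ψ' = ψ) - ind (ψ' = c • ψ)) := by
  -- products at `ψ` and `c ψ`
  have hself : ∀ Φ : CMType c H, ind (ψ ∈ Φ.1) * ind (ψ ∈ Φ.1) = ind (ψ ∈ Φ.1) := by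
    intro Φ
    by_cases h : ψ ∈ Φ.1
    · rw [ind_pos h, mul_one]
    · rw [ind_neg h, mul_zero]
  have hopp : ∀ Φ : CMType c H, ind (ψ ∈ Φ.1) * ind (c • ψ ∈ Φ.1) = 0 := by
    intro Φ
    by_cases h : ψ ∈ Φ.1
    · rw [ind_neg (p := c • ψ ∈ Φ.1) (by rw [Φ.2]; exact not_not.2 h), mul_zero]
    · rw [ind_neg h, zero_mul]
  by_cases hcψ : c • ψ = ψ
  · -- there are no CM types
    have hem : IsEmpty (CMType c H) := ⟨fun Φ => by
      have := Φ.2 ψ
      rw [hcψ] at this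
      exact absurd this (by tauto)⟩
    rw [Finset.univ_eq_empty, Finset.sum_empty, Finset.sum_empty, Nat.card_of_isEmpty]
    simp
  by_cases h1 : ψ' = ψ
  · subst h1
    rw [Finset.sum_congr rfl fun Φ _ => hself Φ, Finset.sum_congr rfl fun Φ _ => hopp Φ, sum_mem,
      Finset.sum_const_zero, ind_pos rfl, ind_neg (fun h => hcψ h.symm)]
    ring
  by_cases h2 : ψ' = c • ψ
  · subst h2
    rw [smul_c H hcc, Finset.sum_congr rfl fun Φ _ => hself Φ,
      Finset.sum_congr rfl fun Φ _ => hopp Φ, sum_mem, Finset.sum_const_zero, ind_neg hcψ,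
      ind_pos rfl]
    ring
  -- the other elements: change the type at `ψ'`
  rw [ind_neg h1, ind_neg h2, sub_zero, mul_zero, sub_eq_zero]
  choose f hf using exists_flip H hcc ψ'
  have hinv : Function.Involutive f := by
    intro Φ
    apply Subtype.ext
    ext x
    rw [hf, hf]
    tauto
  have h3 : ∑ Φ : CMType c H, ind (ψ ∈ (f Φ).1) * ind (ψ' ∈ (f Φ).1) =
      ∑ Φ : CMType c H, ind (ψ ∈ Φ.1) * ind (ψ' ∈ Φ.1) :=
    Fintype.sum_bijective f hinv.bijective _ _ fun _ => rfl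
  rw [← h3]
  refine Finset.sum_congr rfl fun Φ _ => ?_
  have e1 : ψ ∈ (f Φ).1 ↔ ψ ∈ Φ.1 := by
    rw [hf]
    have hn : ¬ (ψ = ψ' ∨ ψ = c • ψ') := by
      rintro (h | h)
      · exact h1 h.symm
      · apply h2
        rw [h, smul_c H hcc]
    tauto
  have e2 : ψ' ∈ (f Φ).1 ↔ c • ψ' ∈ Φ.1 := by
    rw [hf, Φ.2]
    have hn : (ψ' = ψ' ∨ ψ' = c • ψ') := Or.inl rfl
    tauto
  rw [e1, e2]

end types

lemma avg_eq (H : Subgroup G) (g : G) [Fintype (G ⧸ H)] :
    avg c H g = (∑ η : G, ∑ ψ : G ⧸ H, ∑ Φ : CMType c H,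
      ind (ψ ∈ Φ.1) * ind ((η⁻¹ * g * η) • ψ ∈ Φ.1)) / Nat.card G := by
  unfold avg
  have h1 : ∀ Φ : CMType c H, ∑ ψ ∈ Φ.1, a0 (⟨H, ψ, Φ.1, Φ.2⟩ : Datum G c) g =
      (∑ ψ : G ⧸ H, ∑ η : G, ind (ψ ∈ Φ.1) * ind ((η⁻¹ * g * η) • ψ ∈ Φ.1)) / Nat.card G := by
    intro Φ
    rw [Finset.sum_div]
    have h2 : ∀ ψ : G ⧸ H, (∑ η : G, ind (ψ ∈ Φ.1) * ind ((η⁻¹ * g * η) • ψ ∈ Φ.1)) / Nat.card G =
        ind (ψ ∈ Φ.1) * a0 (⟨H, ψ, Φ.1, Φ.2⟩ : Datum G c) g := by
      intro ψ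
      rw [a0_eq, ← Finset.mul_sum, mul_div_assoc]
    rw [Finset.sum_congr rfl fun ψ _ => h2 ψ]
    classical
    rw [← Finset.sum_subset (Finset.subset_univ Φ.1) (f := fun ψ =>
      ind (ψ ∈ Φ.1) * a0 (⟨H, ψ, Φ.1, Φ.2⟩ : Datum G c) g)
      (fun ψ _ h => by rw [ind_neg h, zero_mul])]
    refine Finset.sum_congr rfl fun ψ h => ?_
    rw [ind_pos h, one_mul]
  rw [Finset.sum_congr rfl fun Φ _ => h1 Φ, ← Finset.sum_div]
  congr 1
  rw [Finset.sum_comm]
  rw [Finset.sum_comm (s := (univ : Finset G))]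
  refine Finset.sum_congr rfl fun ψ _ => ?_
  rw [Finset.sum_comm]

lemma perm_eq (H : Subgroup G) (g : G) [Fintype (G ⧸ H)] :
    perm H g = ∑ ψ : G ⧸ H, ind (g • ψ = ψ) := by
  unfold perm
  rw [sum_ind]

/-- the odd part of the average -/
lemma avg_odd (hcc : c * c = 1) (hc : ∀ x : G, c * x = x * c) (H : Subgroup G) (g : G) :
    avg c H g - avg c H (c * g) =
      (Nat.card (CMType c H) : ℚ) / 2 * (perm H g - perm H (c * g)) := by
  have : Fintype (G ⧸ H) := Fintype.ofFinite _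
  rw [avg_eq, avg_eq, ← sub_div, ← Finset.sum_sub_distrib]
  have h1 : ∀ η : G, (∑ ψ : G ⧸ H, ∑ Φ : CMType c H,
      ind (ψ ∈ Φ.1) * ind ((η⁻¹ * g * η) • ψ ∈ Φ.1)) - (∑ ψ : G ⧸ H, ∑ Φ : CMType c H,
      ind (ψ ∈ Φ.1) * ind ((η⁻¹ * (c * g) * η) • ψ ∈ Φ.1)) =
      (Nat.card (CMType c H) : ℚ) / 2 * (perm H g - perm H (c * g)) := by
    intro η
    rw [← Finset.sum_sub_distrib]
    have h2 : ∀ ψ : G ⧸ H, (∑ Φ : CMType c H,
        ind (ψ ∈ Φ.1) * ind ((η⁻¹ * g * η) • ψ ∈ Φ.1)) - (∑ Φ : CMType c H,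
        ind (ψ ∈ Φ.1) * ind ((η⁻¹ * (c * g) * η) • ψ ∈ Φ.1)) =
        (Nat.card (CMType c H) : ℚ) / 2 *
          (ind ((η⁻¹ * g * η) • ψ = ψ) - ind ((η⁻¹ * (c * g) * η) • ψ = ψ)) := by
      intro ψ
      have e : (η⁻¹ * (c * g) * η) • ψ = c • ((η⁻¹ * g * η) • ψ) := by
        rw [smul_smul]
        congr 1
        rw [← mul_assoc, ← hc, mul_assoc, mul_assoc, mul_assoc]
      rw [e, sum_pair H hcc]
      congr 3
      apply propext
      constructor
      · intro h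
        rw [h, smul_c H hcc]
      · intro h
        calc (η⁻¹ * g * η) • ψ = c • c • ((η⁻¹ * g * η) • ψ) := (smul_c H hcc _).symm
          _ = c • ψ := by rw [h]
    rw [Finset.sum_congr rfl fun ψ _ => h2 ψ, ← Finset.mul_sum, Finset.sum_sub_distrib,
      ← perm_eq, ← perm_eq]
    congr 2
    · have := perm_conj H η⁻¹ g
      rwa [inv_inv] at this
    · have := perm_conj H η⁻¹ (c * g)
      rwa [inv_inv] at this
  rw [Finset.sum_congr rfl fun η _ => h1 η, Finset.sum_const, Finset.card_univ,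
    ← Nat.card_eq_fintype_card, nsmul_eq_mul, mul_div_assoc, mul_comm, div_mul_cancel₀]
  exact card_ne

/-- the even part of the average is constant -/
lemma avg_even (hc : ∀ x : G, c * x = x * c) (H : Subgroup G) (g : G) :
    avg c H g + avg c H (c * g) = ∑ Φ : CMType c H, (Φ.1.card : ℚ) := by
  unfold avg
  rw [← Finset.sum_add_distrib]
  refine Finset.sum_congr rfl fun Φ _ => ?_
  rw [← Finset.sum_add_distrib, Finset.card_eq_sum_ones, Nat.cast_sum]
  refine Finset.sum_congr rfl fun ψ _ => ?_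
  rw [a0_c hc]
  push_cast
  ring

/-- there are CM types if `c` is not in `H` -/
lemma exists_type (hcc : c * c = 1) (hc : ∀ x : G, c * x = x * c) (H : Subgroup G) (hH : c ∉ H) :
    Nonempty (CMType c H) := by
  classical
  have : Fintype (G ⧸ H) := Fintype.ofFinite _
  let e := Fintype.equivFin (G ⧸ H)
  have hne : ∀ x : G ⧸ H, c • x ≠ x := by
    intro x
    obtain ⟨y, rfl⟩ := QuotientGroup.mk_surjective x
    intro h
    have h1 : ((c * y : G) : G ⧸ H) = (y : G ⧸ H) := h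
    rw [eq_comm, QuotientGroup.eq] at h1
    apply hH
    rw [hc, inv_mul_cancel_left] at h1
    exact h1
  refine ⟨⟨univ.filter fun x => e x < e (c • x), fun x => ?_⟩⟩
  rw [Finset.mem_filter, Finset.mem_filter, smul_c H hcc]
  simp only [Finset.mem_univ, true_and, not_lt]
  constructor
  · exact le_of_lt
  · intro h
    refine lt_of_le_of_ne h fun h' => hne x (e.injective h')

end Pool.Agent.Y144.CZ
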