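import Mathlib

/-!
# CM data of a Galois CM field, in terms of its Galois group

`G` is the Galois group of a CM field `K`, Galois over `ℚ`, and `c ∈ G` is complex conjugation
(central, `c ^ 2 = 1`). A CM field `E ⊆ K` is given by the subgroup `H` fixing it; the embeddings of
`E` are the cosets `G ⧸ H`.
-/

set_option autoImplicit false
set_option linter.unusedSectionVars false

namespace Pool.Agent.Y144.CZ

open Finset

/-- A CM field `E = K^H`, an embedding `ψ` of `E` and a CM type `Φ` of `E`. -/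
structure Datum (G : Type) [Group G] (c : G) where
  /-- the subgroup of `G` fixing `E` -/
  H : Subgroup G
  /-- an embedding of `E` -/
  ψ : G ⧸ H
  /-- the CM type -/
  Φ : Finset (G ⧸ H)
  /-- exactly one of `x` and its complex conjugate is in `Φ` -/
  cm : ∀ x : G ⧸ H, c • x ∈ Φ ↔ x ∉ Φ

/-- the CM types of the field fixed by `H` -/
abbrev CMType {G : Type} [Group G] (c : G) (H : Subgroup G) : Type :=
  {Φ : Finset (G ⧸ H) // ∀ x : G ⧸ H, c • x ∈ Φ ↔ x ∉ Φ}

noncomputable instance {G : Type} [Group G] [Finite G] (c : G) (H : Subgroup G) :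
    Fintype (CMType c H) := Fintype.ofFinite _

/-- the proportion of the `η ∈ G` with `η⁻¹ g η ψ ∈ Φ` -/
noncomputable def a0 {G : Type} [Group G] [Fintype G] {c : G} (d : Datum G c) (g : G) : ℚ :=
  (Nat.card {η : G // (η⁻¹ * g * η) • d.ψ ∈ d.Φ} : ℚ) / Nat.card G

/-- `1` if `p`, else `0` -/
noncomputable def ind (p : Prop) : ℚ := by
  classical exact if p then 1 else 0

lemma ind_pos {p : Prop} (h : p) : ind p = 1 := by
  classical
  unfold ind; exact if_pos h

lemma ind_neg {p : Prop} (h : ¬ p) : ind p = 0 := by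
  classical
  unfold ind; exact if_neg h

lemma ind_nonneg (p : Prop) : 0 ≤ ind p := by
  by_cases h : p
  · rw [ind_pos h]; norm_num
  · rw [ind_neg h]

lemma sum_ind {α : Type} [Fintype α] (p : α → Prop) :
    ∑ x, ind (p x) = (Nat.card {x : α // p x} : ℚ) := by
  classical
  rw [Nat.card_eq_fintype_card, Fintype.card_subtype, ← Finset.sum_boole]
  refine Finset.sum_congr rfl fun x _ => ?_
  by_cases h : p x
  · rw [ind_pos h, if_pos h]
  · rw [ind_neg h, if_neg h]

section

variable {G : Type} [Group G] [Fintype G] {c : G}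

lemma a0_eq (d : Datum G c) (g : G) :
    a0 d g = (∑ η : G, ind ((η⁻¹ * g * η) • d.ψ ∈ d.Φ)) / Nat.card G := by
  unfold a0
  rw [sum_ind]

lemma card_ne : (Nat.card G : ℚ) ≠ 0 := by
  exact_mod_cast Nat.card_pos.ne'

lemma sum_one : (∑ _η : G, (1 : ℚ)) = Nat.card G := by
  rw [Finset.sum_const, Finset.card_univ, Nat.card_eq_fintype_card, nsmul_eq_mul, mul_one]

/-- `a0` is a class function -/
lemma a0_conj (d : Datum G c) (x g : G) : a0 d (x * g * x⁻¹) = a0 d g := by
  rw [a0_eq, a0_eq]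
  congr 1
  refine Fintype.sum_equiv (Equiv.mulLeft x⁻¹) _ _ fun η => ?_
  show ind _ = ind (((x⁻¹ * η)⁻¹ * g * (x⁻¹ * η)) • d.ψ ∈ d.Φ)
  have : (x⁻¹ * η)⁻¹ * g * (x⁻¹ * η) = η⁻¹ * (x * g * x⁻¹) * η := by group
  rw [this]

/-- complex conjugation -/
lemma a0_c (hc : ∀ x : G, c * x = x * c) (d : Datum G c) (g : G) :
    a0 d (c * g) = 1 - a0 d g := by
  rw [a0_eq, a0_eq, eq_sub_iff_add_eq, ← add_div, ← Finset.sum_add_distrib, div_eq_one_iff_eq
    card_ne, ← sum_one]
  refine Finset.sum_congr rfl fun η _ => ?_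
  have e : (η⁻¹ * (c * g) * η) • d.ψ = c • ((η⁻¹ * g * η) • d.ψ) := by
    rw [smul_smul]
    congr 1
    rw [← mul_assoc, ← hc, mul_assoc, mul_assoc, mul_assoc]
  rw [e]
  by_cases h : (η⁻¹ * g * η) • d.ψ ∈ d.Φ
  · rw [ind_pos h, ind_neg (by rw [d.cm]; exact not_not.2 h), zero_add]
  · rw [ind_neg h, ind_pos (by rw [d.cm]; exact h), add_zero]

end

end Pool.Agent.Y144.CZ
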