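import Pool.Agent.Y144.CZ.Art

/-!
# Which combinations of CM data are controlled by the averages and the abelian case
-/

set_option autoImplicit false
set_option linter.unusedSectionVars false

namespace Pool.Agent.Y144.CZ

open Finset
open scoped commutatorElement

variable {G : Type} [Group G] [Fintype G] {c : G}

noncomputable local instance : Fintype (commutator G) := Fintype.ofFinite _

/-- odd functions on the abelianization -/
theorem abelian_zero (hcc : c * c = 1) (hc : ∀ x : G, c * x = x * c) (D : (G → ℚ) →ₗ[ℚ] ℝ)
    (hab : ∀ d : Datum G c, commutator G ≤ d.H → D (a0 d) = 0)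
    (f : G → ℚ) (hf : ∀ g, ∀ u ∈ commutator G, f (g * u) = f g)
    (hodd : ∀ g, f (c * g) = - f g) : D f = 0 := by
  classical
  have : Fintype (G ⧸ commutator G) := Fintype.ofFinite _
  -- the functions `δ_x - δ_(c x)`
  set e : (G ⧸ commutator G) → G → ℚ := fun x g =>
    ind ((g : G ⧸ commutator G) = x) - ind ((g : G ⧸ commutator G) = c • x) with he
  have hDe : ∀ x, D (e x) = 0 := by
    intro x
    by_cases hcG : c ∈ commutator G
    · have h1 : c • x = x := by
        obtain ⟨y, rfl⟩ := QuotientGroup.mk_surjective x
        show ((c * y : G) : G ⧸ commutator G) = (y : G ⧸ commutator G)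
        rw [eq_comm, QuotientGroup.eq, hc, inv_mul_cancel_left]
        exact hcG
      have h2 : e x = 0 := by
        funext g
        simp only [he, h1, sub_self, Pi.zero_apply]
      rw [h2, map_zero]
    · -- a CM type containing `x`
      obtain ⟨Φ0⟩ := exists_type hcc hc (commutator G) hcG
      obtain ⟨Φ, hΦ⟩ : ∃ Φ : CMType c (commutator G), x ∈ Φ.1 := by
        by_cases h : x ∈ Φ0.1
        · exact ⟨Φ0, h⟩
        · obtain ⟨Ψ, hΨ⟩ := exists_compl (commutator G) Φ0
          exact ⟨Ψ, (hΨ x).2 h⟩
      obtain ⟨Ψ, hΨ⟩ := exists_flip (commutator G) hcc x Φ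
      have hval : ∀ (Θ : CMType c (commutator G)) (g : G),
          a0 (⟨commutator G, ((1 : G) : G ⧸ commutator G), Θ.1, Θ.2⟩ : Datum G c) g =
            ind ((g : G ⧸ commutator G) ∈ Θ.1) := by
        intro Θ g
        rw [a0_eq]
        have h1 : ∀ η : G, ind ((η⁻¹ * g * η) • ((1 : G) : G ⧸ commutator G) ∈ Θ.1) =
            ind ((g : G ⧸ commutator G) ∈ Θ.1) := by
          intro η
          have : (η⁻¹ * g * η) • ((1 : G) : G ⧸ commutator G) = (g : G ⧸ commutator G) := by
            show ((η⁻¹ * g * η * 1 : G) : G ⧸ commutator G) = (g : G ⧸ commutator G)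
            rw [mul_one, QuotientGroup.eq]
            have h2 : (η⁻¹ * g * η)⁻¹ * g = ⁅η⁻¹, g⁻¹⁆ := by
              rw [commutatorElement_def]
              group
            rw [h2]
            exact Subgroup.commutator_mem_commutator (Subgroup.mem_top _) (Subgroup.mem_top _)
          rw [this]
        rw [Finset.sum_congr rfl fun η _ => h1 η, Finset.sum_const, Finset.card_univ,
          ← Nat.card_eq_fintype_card, nsmul_eq_mul, mul_div_assoc, mul_comm, div_mul_cancel₀]
        exact card_ne
      have h3 : e x = a0 (⟨commutator G, ((1 : G) : G ⧸ commutator G), Φ.1, Φ.2⟩ : Datum G c) -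
          a0 (⟨commutator G, ((1 : G) : G ⧸ commutator G), Ψ.1, Ψ.2⟩ : Datum G c) := by
        funext g
        rw [Pi.sub_apply, hval, hval]
        simp only [he]
        have hx2 : c • x ∉ Φ.1 := by
          rw [Φ.2]
          exact not_not.2 hΦ
        have hne : c • x ≠ x := fun h => hx2 (by rw [h]; exact hΦ)
        by_cases h1 : (g : G ⧸ commutator G) = x
        · rw [h1, ind_pos rfl, ind_neg (fun h => hne h.symm), ind_pos hΦ,
            ind_neg (p := x ∈ Ψ.1)]
          rw [hΨ]
          tauto
        · by_cases h2 : (g : G ⧸ commutator G) = c • x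
          · rw [h2, ind_neg hne, ind_pos rfl, ind_neg hx2, ind_pos (p := c • x ∈ Ψ.1)]
            rw [hΨ]
            tauto
          · rw [ind_neg h1, ind_neg h2, sub_zero]
            have h4 : (g : G ⧸ commutator G) ∈ Ψ.1 ↔ (g : G ⧸ commutator G) ∈ Φ.1 := by
              rw [hΨ]
              tauto
            rw [h4, sub_self]
      rw [h3, map_sub, hab _ le_rfl, hab _ le_rfl, sub_zero]
  -- the expansion of `f`
  choose r hr using fun x : G ⧸ commutator G => QuotientGroup.mk_surjective x
  have hfr : ∀ g : G, f (r (g : G ⧸ commutator G)) = f g := by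
    intro g
    have h1 := hr (g : G ⧸ commutator G)
    rw [eq_comm, QuotientGroup.eq] at h1
    have h2 := hf g _ h1
    rwa [mul_inv_cancel_left] at h2
  have hexp : (2 : ℚ) • f = ∑ x : G ⧸ commutator G, f (r x) • e x := by
    funext g
    rw [Finset.sum_apply, Pi.smul_apply, smul_eq_mul]
    have h1 : ∀ x : G ⧸ commutator G, (f (r x) • e x) g =
        (if x = (g : G ⧸ commutator G) then f (r x) else 0) -
        (if x = ((c * g : G) : G ⧸ commutator G) then f (r x) else 0) := by
      intro x
      rw [Pi.smul_apply, smul_eq_mul]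
      simp only [he]
      have e1 : ind ((g : G ⧸ commutator G) = x) =
          if x = (g : G ⧸ commutator G) then 1 else 0 := by
        by_cases h : x = (g : G ⧸ commutator G)
        · rw [if_pos h, ind_pos h.symm]
        · rw [if_neg h, ind_neg (fun h' => h h'.symm)]
      have e2 : ind ((g : G ⧸ commutator G) = c • x) =
          if x = ((c * g : G) : G ⧸ commutator G) then 1 else 0 := by
        by_cases h : x = ((c * g : G) : G ⧸ commutator G)
        · rw [if_pos h, ind_pos]
          rw [h]
          show (g : G ⧸ commutator G) = ((c * (c * g) : G) : G ⧸ commutator G)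
          rw [← mul_assoc, hcc, one_mul]
        · rw [if_neg h, ind_neg]
          intro h'
          apply h
          show x = c • (g : G ⧸ commutator G)
          rw [h', smul_c _ hcc]
      rw [e1, e2]
      split_ifs <;> ring
    rw [Finset.sum_congr rfl fun x _ => h1 x, Finset.sum_sub_distrib, Finset.sum_ite_eq' univ,
      Finset.sum_ite_eq' univ, if_pos (Finset.mem_univ _), if_pos (Finset.mem_univ _), hfr, hfr,
      hodd]
    ring
  have h5 : D ((2 : ℚ) • f) = 0 := by
    rw [hexp, map_sum]
    refine Finset.sum_eq_zero fun x _ => ?_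
    rw [map_smul, hDe, smul_zero]
  rw [map_smul] at h5
  have h4 : (2 : ℚ) ≠ 0 := by norm_num
  exact (smul_eq_zero.1 h5).resolve_left h4

/-- the mean over the cosets of the commutator subgroup -/
noncomputable def mean (f : G → ℚ) (g : G) : ℚ :=
  (∑ u : commutator G, f (g * u)) / Nat.card (commutator G)

lemma mean_mul (f : G → ℚ) (g u : G) (hu : u ∈ commutator G) : mean f (g * u) = mean f g := by
  unfold mean
  congr 1
  refine Fintype.sum_equiv (Equiv.mulLeft (⟨u, hu⟩ : commutator G)) _ _ fun v => ?_
  show f (g * u * v) = f (g * (u * v))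
  rw [mul_assoc]

lemma card_comm_ne : (Nat.card (commutator G) : ℚ) ≠ 0 := by
  exact_mod_cast Nat.card_pos.ne'

lemma mean_const_sum (f : G → ℚ) (g : G) (t : ℚ)
    (h : ∀ u ∈ commutator G, f (g * u) = t) : mean f g = t := by
  unfold mean
  rw [Finset.sum_congr rfl fun (u : commutator G) _ => h u u.2, Finset.sum_const, Finset.card_univ,
    ← Nat.card_eq_fintype_card, nsmul_eq_mul, mul_div_assoc, mul_comm, div_mul_cancel₀]
  exact card_comm_ne

/-- the condition on the power maps -/
def Star (b : G → ℚ) : Prop := ∀ k : ℕ, Nat.Coprime k (Nat.card G) → ∀ g : G, ∀ u ∈ commutator G,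
  b ((g * u) ^ k) - b (g * u) = b (g ^ k) - b g

lemma mem_comm_of_pow (g u : G) (hu : u ∈ commutator G) (k : ℕ) :
    (g ^ k)⁻¹ * (g * u) ^ k ∈ commutator G := by
  rw [← Abelianization.ker_of, MonoidHom.mem_ker]
  have h1 : Abelianization.of u = 1 := by
    rw [← MonoidHom.mem_ker, Abelianization.ker_of]
    exact hu
  rw [map_mul, map_inv, map_pow, map_pow, map_mul, h1, mul_one, inv_mul_cancel]

lemma mean_pow (f : G → ℚ) (k : ℕ) (hk : Nat.Coprime k (Nat.card G)) (g : G) :
    mean f (g ^ k) = (∑ u : commutator G, f ((g * u) ^ k)) / Nat.card (commutator G) := by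
  unfold mean
  congr 1
  let σ : commutator G → commutator G := fun u =>
    ⟨(g ^ k)⁻¹ * (g * u) ^ k, mem_comm_of_pow g u u.2 k⟩
  have hinj : Function.Injective σ := by
    intro u v h
    have h1 : (g ^ k)⁻¹ * (g * u) ^ k = (g ^ k)⁻¹ * (g * v) ^ k := congrArg Subtype.val h
    have h2 := mul_left_cancel h1
    have h3 := (powCoprime (Nat.Coprime.symm hk)).injective (a₁ := g * u) (a₂ := g * v) h2
    exact Subtype.ext (mul_left_cancel h3)
  have hbij : Function.Bijective σ := Finite.injective_iff_bijective.1 hinj
  refine (Fintype.sum_bijective σ hbij _ _ fun u => ?_).symm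
  show f ((g * u) ^ k) = f (g ^ k * ((g ^ k)⁻¹ * (g * u) ^ k))
  rw [mul_inv_cancel_left]

/-- **Criterion.** A class function `b` with `b g + b (c g)` constant such that all functions
`b (g ^ k) - b g`, `k` prime to `|G|`, factor through the abelianization is killed by every linear
form which kills the constants, the averages over CM types and the CM data of abelian fields. -/
theorem criterion (hcc : c * c = 1) (hc : ∀ x : G, c * x = x * c) (D : (G → ℚ) →ₗ[ℚ] ℝ)
    (h1 : D (fun _ => 1) = 0) (havg : ∀ H : Subgroup G, c ∉ H → D (avg c H) = 0)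
    (hab : ∀ d : Datum G c, commutator G ≤ d.H → D (a0 d) = 0)
    (b : G → ℚ) (hb : Cls b) (κ : ℚ) (hκ : ∀ g, b g + b (c * g) = κ) (hstar : Star b) :
    D b = 0 := by
  -- the odd parts of the permutation characters
  have hconst : ∀ t : ℚ, D (fun _ => t) = 0 := by
    intro t
    have : (fun _ : G => t) = t • (fun _ : G => (1 : ℚ)) := by
      funext g
      rw [Pi.smul_apply, smul_eq_mul, mul_one]
    rw [this, map_smul, h1, smul_zero]
  have hperm : ∀ H : Subgroup G, D (fun g => perm H g - perm H (c * g)) = 0 := by
    intro H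
    by_cases hH : c ∈ H
    · have : (fun g => perm H g - perm H (c * g)) = 0 := by
        funext g
        have hx : ∀ x : G ⧸ H, (c * g) • x = g • x := by
          intro x
          obtain ⟨y, rfl⟩ := QuotientGroup.mk_surjective x
          show ((c * g * y : G) : G ⧸ H) = ((g * y : G) : G ⧸ H)
          rw [eq_comm, QuotientGroup.eq, mul_assoc, hc, inv_mul_cancel_left]
          exact hH
        unfold perm
        simp only [hx, sub_self, Pi.zero_apply]
      rw [this, map_zero]
    · have hT : (Nat.card (CMType c H) : ℚ) ≠ 0 := by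
        have := exists_type hcc hc H hH
        have h2 : 0 < Nat.card (CMType c H) := Nat.card_pos
        exact_mod_cast h2.ne'
      have h2 : avg c H = ((Nat.card (CMType c H) : ℚ) / 4) • (fun g => perm H g - perm H (c * g)) +
          (fun _ => (∑ Φ : CMType c H, (Φ.1.card : ℚ)) / 2) := by
        funext g
        rw [Pi.add_apply, Pi.smul_apply, smul_eq_mul]
        have e1 := avg_odd hcc hc H g
        have e2 := avg_even hc H g
        linarith
      have h3 := havg H hH
      rw [h2, map_add, hconst, add_zero, map_smul] at h3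
      have h4 : (Nat.card (CMType c H) : ℚ) / 4 ≠ 0 := div_ne_zero hT (by norm_num)
      exact (smul_eq_zero.1 h3).resolve_left h4
  -- the odd part of `b`
  set b' : G → ℚ := fun g => b g - κ / 2 with hb'
  have hb'odd : ∀ g, b' (c * g) = - b' g := by
    intro g
    simp only [hb']
    linarith [hκ g]
  have hb'C : Cls b' := by
    intro x g
    simp only [hb']
    rw [hb]
  have hb'S : Star b' := by
    intro k hk g u hu
    simp only [hb']
    linarith [hstar k hk g u hu]
  have hDb : D b = D b' := by
    have : b = b' + fun _ => κ / 2 := by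
      funext g
      simp only [hb', Pi.add_apply]
      ring
    rw [this, map_add, hconst, add_zero]
  rw [hDb]
  -- the abelian part
  have hmodd : ∀ g, mean b' (c * g) = - mean b' g := by
    intro g
    unfold mean
    rw [← neg_div, ← Finset.sum_neg_distrib]
    congr 1
    refine Finset.sum_congr rfl fun u _ => ?_
    rw [mul_assoc, hb'odd]
  have hm0 : D (mean b') = 0 := abelian_zero hcc hc D hab (mean b') (fun g u hu => mean_mul b' g u hu)
    hmodd
  -- the rest
  have hrest : D (b' - mean b') = 0 := by
    refine odd_zero D hperm _ ?_ ?_ ?_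
    · intro x g
      rw [Pi.sub_apply, Pi.sub_apply, hb'C]
      have h2 : x * g * x⁻¹ = g * (g⁻¹ * x * g * x⁻¹) := by group
      have h3 : g⁻¹ * x * g * x⁻¹ ∈ commutator G := by
        have : g⁻¹ * x * g * x⁻¹ = ⁅g⁻¹, x⁆ := by
          rw [commutatorElement_def, inv_inv]
        rw [this]
        exact Subgroup.commutator_mem_commutator (Subgroup.mem_top _) (Subgroup.mem_top _)
      rw [h2, mean_mul _ _ _ h3]
    · intro k hk g
      rw [Pi.sub_apply, Pi.sub_apply, mean_pow b' k hk]
      have h4 : (∑ u : commutator G, b' ((g * u) ^ k)) / Nat.card (commutator G) =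
          mean b' g + (b' (g ^ k) - b' g) := by
        have h5 : ∀ u : commutator G, b' ((g * u) ^ k) = b' (g * u) + (b' (g ^ k) - b' g) := by
          intro u
          linarith [hb'S k hk g u u.2]
        rw [Finset.sum_congr rfl fun u _ => h5 u, Finset.sum_add_distrib, add_div]
        unfold mean
        congr 1
        rw [Finset.sum_const, Finset.card_univ, ← Nat.card_eq_fintype_card, nsmul_eq_mul,
          mul_div_assoc, mul_comm, div_mul_cancel₀]
        exact card_comm_ne
      rw [h4]
      ring
    · intro g
      rw [Pi.sub_apply, Pi.sub_apply, hb'odd, hmodd]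
      ring
  have h6 : b' = (b' - mean b') + mean b' := by rw [sub_add_cancel]
  rw [h6, map_add, hrest, hm0, add_zero]

end Pool.Agent.Y144.CZ
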